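import Pool.Agent.HUK.Stmts
import Pool.Agent.Helper67_HIP.EXI
import Pool.Agent.Helper41_HIP.ALI

/-! HUK, row STI (helper85): stable irreducibility. -/

set_option autoImplicit false

namespace Pool.Agent.HUK.H85

open Polynomial NumberField Pool.Agent.MTL Pool.Agent.HIK Pool.Agent.HIP Pool.Agent.MTPN
  Pool.Agent.HIK.H84 Pool.Agent.HIK.H80 Pool.Agent.HUK

/-- irreducibility over the fraction ring gives irreducibility over a fraction field -/
theorem irr_frac' {A E : Type} [CommRing A] [IsDomain A] [Field E] [Algebra A E]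
    [IsFractionRing A E]
    (g : A[X]) (h : Irreducible (g.map (algebraMap A (FractionRing A)))) :
    Irreducible (g.map (algebraMap A E)) := by
  let e : FractionRing A ≃ₐ[A] E := FractionRing.algEquiv A E
  have h1 : g.map (algebraMap A E) =
      Polynomial.mapEquiv e.toRingEquiv (g.map (algebraMap A (FractionRing A))) := by
    rw [Polynomial.mapEquiv_apply, Polynomial.map_map]
    congr 1
    ext a
    exact (e.commutes a).symm
  rw [h1, MulEquiv.irreducible_iff]
  exact h

/-- all the roots of an irreducible polynomial are conjugate -/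
theorem conj_root (k : Type) [Field k] [NumberField k] (φ : k →+* Om) (g : (𝓞 k)[X][X])
    (hg : AdmI k g) (x y : Om) (hx : g.eval₂ (zph φ) x = 0) (hy : g.eval₂ (zph φ) y = 0) :
    ∃ γ ∈ Gph φ, γ x = y := by
  obtain ⟨hinj, hmem⟩ := H80.frk k φ
  let A := (𝓞 k)[X]
  let E := EE φ
  let alg1 : Algebra A E := ((kph φ).comp (mapRingHom (algebraMap (𝓞 k) k))).toAlgebra
  have hmap : ∀ P : A, ((algebraMap A E P : E) : Om) = zph φ P := fun P => kph_coe φ P
  have hf : FaithfulSMul A E := by
    rw [faithfulSMul_iff_algebraMap_injective]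
    intro P Q h
    apply hinj
    rw [← hmap, ← hmap, h]
  have hfr : IsFractionRing A E := by
    refine IsFractionRing.of_field A E fun z => ?_
    obtain ⟨F, G, -, hz⟩ := (hmem z).1 z.2
    refine ⟨F, G, ?_⟩
    apply Subtype.ext
    rw [hz, ← hmap, ← hmap]
    rfl
  have hirr : Irreducible (g.map (algebraMap A E)) := irr_frac' (A := A) (E := E) g hg.irr
  have hmon : (g.map (algebraMap A E)).Monic := hg.monic.map _
  have hev : ∀ z : Om, aeval z (g.map (algebraMap A E)) = g.eval₂ (zph φ) z := by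
    intro z
    rw [aeval_def, eval₂_map]
    congr 1
    exact RingHom.ext fun P => hmap P
  have h1 := minpoly.eq_of_irreducible_of_monic hirr ((hev x).trans hx) hmon
  have h2 := minpoly.eq_of_irreducible_of_monic hirr ((hev y).trans hy) hmon
  have hN : Normal E Om := Normal.tower_top_of_normal (RatFunc ℚ) E Om
  obtain ⟨σ, hσ⟩ := (Normal.minpoly_eq_iff_mem_orbit Om).1 (h2.symm.trans h1)
  refine ⟨σ.restrictScalars (RatFunc ℚ), ?_, hσ⟩
  intro c
  exact σ.commutes ⟨φ c, phi_mem φ c⟩

theorem phi_alg {K : Type} [Field K] [NumberField K] (φ : K →+* Om) (c : K) :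
    IsAlgebraic ℚ (φ c) := by
  obtain ⟨p, hp0, hp⟩ : IsAlgebraic ℚ c := Algebra.IsAlgebraic.isAlgebraic c
  refine ⟨p, hp0, ?_⟩
  have h2 := Polynomial.aeval_algHom_apply φ.toRatAlgHom c p
  rw [hp, map_zero] at h2
  exact h2

theorem ggeo_le {K : Type} [Field K] [NumberField K] (φ : K →+* Om) : Ggeo ≤ Gph φ := by
  intro σ hσ c
  exact hσ (φ c) (phi_alg φ c)

/-- an extension of an embedding -/
theorem ext_emb {k K : Type} [Field k] [NumberField k] [Field K] [NumberField K] (j : k →+* K)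
    (φ : k →+* Om) : ∃ φ' : K →+* Om, ∀ c, φ' (j c) = φ c := by
  letI : Algebra k K := j.toAlgebra
  letI : Algebra k Om := φ.toAlgebra
  haveI : IsScalarTower ℚ k K := IsScalarTower.of_algebraMap_eq' (Subsingleton.elim _ _)
  haveI : Algebra.IsAlgebraic k K := Algebra.IsAlgebraic.tower_top (K := ℚ) k
  let e : K →ₐ[k] Om := IsAlgClosed.lift
  exact ⟨e.toRingHom, fun c => e.commutes c⟩

/-- STI -/
theorem sti : StiStmt := by
  intro N k _ _ φ hN H hNH hcl hle
  obtain ⟨x, g, hg, hgx, hfix⟩ := HIP.H67.exi HIP.H41.ali k φ H hcl hle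
  refine ⟨x, g, ⟨hg.monic, hg.deg, ?_, hg.sep⟩, hgx, hfix⟩
  intro K _ _ j
  obtain ⟨φ', hφ'⟩ := ext_emb j φ
  obtain ⟨P, Q, r, hr, hPQ⟩ := hg.sep
  have hinj := zph_inj k φ
  have hinj' := zph_inj K φ'
  let F := FractionRing (𝓞 K)[X]
  let ι' : F →+* Om := IsFractionRing.lift hinj'
  have hι : ∀ P : (𝓞 K)[X], ι' (algebraMap _ _ P) = zph φ' P :=
    fun P => IsFractionRing.lift_algebraMap hinj' P
  let f0 : (𝓞 k)[X] →+* (𝓞 K)[X] := mapRingHom (RingOfIntegers.mapRingHom j)
  have hz : (zph φ').comp f0 = zph φ := by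
    refine Polynomial.ringHom_ext (fun a => ?_) ?_
    · simp only [RingHom.comp_apply, f0, coe_mapRingHom, map_C, zph, coe_eval₂RingHom, eval₂_C]
      exact hφ' _
    · simp only [RingHom.comp_apply, f0, coe_mapRingHom, map_X, zph, coe_eval₂RingHom, eval₂_X]
  have hcomp : (ι'.comp (algebraMap (𝓞 K)[X] F)).comp f0 = zph φ := by
    rw [← hz]
    congr 1
    exact RingHom.ext fun P => hι P
  set G : F[X] := (pj j g).map (algebraMap (𝓞 K)[X] F) with hG
  have hGg : G = g.map ((algebraMap (𝓞 K)[X] F).comp f0) := by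
    rw [hG, pj, coe_mapRingHom, Polynomial.map_map]
  have hmon : G.Monic := by
    rw [hGg]
    exact hg.monic.map _
  have hev : ∀ (y : Om) (p : (𝓞 k)[X][X]),
      (p.map ((algebraMap (𝓞 K)[X] F).comp f0)).eval₂ ι' y = p.eval₂ (zph φ) y := by
    intro y p
    rw [eval₂_map, ← hcomp]
    rfl
  letI : Algebra F Om := ι'.toAlgebra
  have hGx : aeval x G = 0 := by
    rw [aeval_def, hGg]
    exact (hev x g).trans hgx
  have hint : IsIntegral F x := ⟨G, hmon, hGx⟩
  obtain ⟨v, hv⟩ := minpoly.dvd F x hGx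
  have hqm := minpoly.monic hint
  have hvm : v.Monic := Monic.of_mul_monic_left hqm (hv ▸ hmon)
  -- the conjugates of `x`
  have key : ∀ y : Om, G.eval₂ ι' y = 0 → (minpoly F x).eval₂ ι' y = 0 := by
    intro y hy
    rw [hGg, hev] at hy
    obtain ⟨γ, hγ, hγx⟩ := conj_root k φ g hg x y hgx hy
    obtain ⟨γ', hγ', hn⟩ := hN γ hγ
    have h1 : (γ'⁻¹ * γ) x = x := by
      apply hfix _ (hNH hn)
      exact mul_mem (inv_mem (ggeo_le φ hγ')) hγ
    have h2 : γ' x = y := by
      rw [← hγx]
      have h3 : γ' ((γ'⁻¹ * γ) x) = γ x := by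
        rw [← AlgEquiv.mul_apply]
        congr 1
        group
      rw [← h3, h1]
    have h4 : ((γ' : GT) : Om →+* Om).comp ι' = ι' := by
      apply IsLocalization.ringHom_ext (nonZeroDivisors (𝓞 K)[X])
      refine RingHom.ext fun P => ?_
      change γ' (ι' (algebraMap _ _ P)) = ι' (algebraMap _ _ P)
      rw [hι]
      exact gph_zph φ' γ' (ggeo_le φ' hγ') P
    have h5 : (minpoly F x).eval₂ ι' x = 0 := minpoly.aeval F x
    have h6 := Polynomial.hom_eval₂ (minpoly F x) ι' ((γ' : GT) : Om →+* Om) x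
    rw [h5, map_zero, h4] at h6
    rw [← h2]
    exact h6.symm
  have hv1 : v.natDegree = 0 := by
    by_contra hne
    obtain ⟨y, hy⟩ := IsAlgClosed.exists_eval₂_eq_zero ι' v (by
      intro h
      exact hne (natDegree_eq_of_degree_eq_some h))
    have hGy : G.eval₂ ι' y = 0 := by
      rw [hv, eval₂_mul, hy, mul_zero]
    have hqy := key y hGy
    have hdy : (derivative G).eval₂ ι' y = 0 := by
      rw [hv, derivative_mul, eval₂_add, eval₂_mul, eval₂_mul, hqy, hy, mul_zero, zero_mul,
        add_zero]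
    have h7 : (P * g + Q * derivative g).eval₂ (zph φ) y = zph φ r := by
      rw [hPQ, eval₂_C]
    rw [eval₂_add, eval₂_mul, eval₂_mul] at h7
    have h8 : g.eval₂ (zph φ) y = 0 := by
      rw [← hev, ← hGg]
      exact hGy
    have h9 : (derivative g).eval₂ (zph φ) y = 0 := by
      rw [← hev, ← derivative_map, ← hGg]
      exact hdy
    rw [h8, h9, mul_zero, mul_zero, add_zero] at h7
    exact hr (hinj (by rw [← h7, map_zero]))
  have hv2 : v = 1 := hvm.natDegree_eq_zero.1 hv1
  rw [hv2, mul_one] at hv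
  rw [hv]
  exact minpoly.irreducible hint

end Pool.Agent.HUK.H85
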